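import Pool.Agent.helper37.L5.Spec

/-!
# Project L5 (MP_baa4d7_al), row FRB5: the block of `H` over the block of `cz R`
-/

set_option autoImplicit false

namespace Pool.Agent.L5

open Pool.Agent.helper58.DC Pool.Agent.DI Pool.Agent.GR Pool.Agent.OB Pool.Agent.DR Pool.Agent.FI Pool.Agent.FI3 Pool.Agent.FI4 Pool.Agent.FI4I Pool.Agent.LE

private theorem FRB5_mt {G : Type} [Group G] [Finite G] (hCCJ : CCJ_stmt) (hB2 : B2_stmt) {K N : Subgroup G}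
    (hN : N ≤ nz K) {ψ : G → ℂ} (hψ : ψ ∈ IrrOn K) {φ : G → ℂ} {e : ℕ} (hov : OverE K N φ ψ e) {ψ' : G → ℂ}
    (hψ' : ψ' ∈ IrrOn K) :
    ((∃ n ∈ N, ψ' = funMap (MulAut.conj n) ψ) → mt K φ ψ' = e) ∧
    ((¬ ∃ n ∈ N, ψ' = funMap (MulAut.conj n) ψ) → mt K φ ψ' = 0) := by
  classical
  have := Fintype.ofFinite G
  have h1 := ((hCCJ G K N hN ψ hψ).2.1 φ e).1 hov
  have hfin := (hB2 G K).1
  have hK0 : (Nat.card K : ℂ) ≠ 0 := by exact_mod_cast Nat.card_pos.ne'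
  obtain ⟨c, hc⟩ : ∃ c : (G → ℂ) → ℂ, ∀ θ, c θ = if ∃ n ∈ N, θ = funMap (MulAut.conj n) ψ then (e : ℂ) else 0 :=
    ⟨_, fun _ => rfl⟩
  have h3 : ∀ x ∈ K, φ x = ∑ θ ∈ hfin.toFinset, c θ * θ x := by
    intro x hx
    rw [h1 x hx, finsum_mem_eq_finite_toFinset_sum _ hfin]
    refine Finset.sum_congr rfl fun θ _ => ?_
    rw [hc]
    by_cases h : ∃ n ∈ N, θ = funMap (MulAut.conj n) ψ
    · rw [if_pos h, if_pos h]
    · rw [if_neg h, if_neg h]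
  have h2 : ∑ᶠ x ∈ (K : Set G), φ x * ψ' x⁻¹ = ∑ x : G, ∑ θ ∈ hfin.toFinset, c θ * (θ x * ψ' x⁻¹) := by
    rw [finsum_mem_def, finsum_eq_sum_of_fintype]
    refine Finset.sum_congr rfl fun x _ => ?_
    by_cases hx : x ∈ K
    · rw [Set.indicator_of_mem (show x ∈ (K : Set G) from hx), h3 x hx, Finset.sum_mul]
      refine Finset.sum_congr rfl fun θ _ => ?_
      ring
    · rw [Set.indicator_of_notMem (show x ∉ (K : Set G) from hx)]
      symm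
      refine Finset.sum_eq_zero fun θ hθ => ?_
      have h4 : θ ∈ IrrOn K := hfin.mem_toFinset.1 hθ
      rw [((hB2 G K).2 θ h4).2.2.2.1 x hx]
      ring
  have h4 : mt K φ ψ' = c ψ' := by
    unfold Pool.Agent.FI.mt
    rw [div_eq_iff hK0, h2, Finset.sum_comm, Finset.sum_eq_single ψ']
    · rw [← Finset.mul_sum]
      congr 1
      have h5 := ((hB2 G K).2 ψ' hψ').2.2.2.2 ψ' hψ'
      rw [finsum_eq_sum_of_fintype, if_pos rfl] at h5
      exact h5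
    · intro θ hθ hne
      rw [← Finset.mul_sum]
      have h5 := ((hB2 G K).2 θ (hfin.mem_toFinset.1 hθ)).2.2.2.2 ψ' hψ'
      rw [finsum_eq_sum_of_fintype, if_neg hne] at h5
      rw [h5, mul_zero]
    · intro h
      exact absurd (hfin.mem_toFinset.2 hψ') h
  constructor
  · intro h
    rw [h4, hc, if_pos h]
  · intro h
    rw [h4, hc, if_neg h]

theorem FRB5 (hCFA : CFA_stmt) (hCCJ : CCJ_stmt) (hFOV3 : FOV3_stmt) (hLOA : LOA_stmt) (hRTN : RTN_stmt) (hFEQ : FEQ_stmt) (hFSI : FSI_stmt) (hCJG : CJG_stmt) (hTR1 : TR1_stmt) (hTR2 : TR2_stmt) (hTR3 : TR3_stmt) (hTPR : Pool.Agent.FI.TPR_stmt) (hB2 : B2_stmt) : FRB5_stmt := by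
  intro p M hS G _ _ D x θ χ rt R hRD hnR H hKH φ hφ
  have hCK : cz D ≤ cz R := cz_mono hRD
  have hDC : D ≤ cz D := le_cz_of_com rt.com
  have hRp : IsPGroup p R := rt.dfa.pgrp.to_le hRD
  have hRK : R ≤ cz R := (hRD.trans hDC).trans hCK
  have hRH : R ≤ H := hRK.trans hKH
  have hCH : cz D ≤ H := hCK.trans hKH
  have hθ : θ ∈ IrrOn (cz D) := rt.th
  have hHnR : H ≤ nz R := by rw [hnR]; exact le_top
  have hall : ∀ g : G, g ∈ nz R := fun g => by rw [hnR]; exact Subgroup.mem_top g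
  have hHnK : H ≤ nz (cz R) := by
    intro g _
    rw [Subgroup.mem_normalizer_iff]
    intro y
    constructor
    · intro hy
      exact cz_conj (hall g) hy
    · intro hy
      have h1 := cz_conj (hall g⁻¹) hy
      have h2 : g⁻¹ * (g * y * g⁻¹) * g⁻¹⁻¹ = y := by group
      rwa [h2] at h1
  obtain ⟨ψ, hψ, e, he, hov⟩ := (hCFA G (cz R) H hKH hHnK).1 φ hφ
  have hφψ : SB M H φ ψ := (hFOV3 p M hS G R H H hRp hRH hKH hHnR le_rfl φ hφ ψ hψ e he hov).1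
  have he0 : (e : ℂ) ≠ 0 := by exact_mod_cast he.ne'
  have hθK : ∀ z, z ∉ cz R → θ z = 0 := fun z hz => hθ.1 z fun h => hz (hCK h)
  constructor
  · rintro ⟨-, hφθ⟩
    obtain ⟨x'', rt₂⟩ := hRTN p M hS G D x θ χ rt H hCH φ hφ (SB.symm hφθ)
    have lo := hLOA p M hS H _ _ _ _ rt₂
    have hczR : cz (R.subgroupOf H) = (cz R).subgroupOf H := ((hTR3 p G H).1 R hRH).1
    have hnzR : nz (R.subgroupOf H) = (nz R).subgroupOf H := ((hTR3 p G H).1 R hRH).2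
    have hRp' : IsPGroup p (R.subgroupOf H) := ((hTR3 p G H).2.1 R hRH).2.2 hRp
    have hψH : ∀ z, z ∉ H → ψ z = 0 := fun z hz => hψ.1 z fun h => hz (hKH h)
    have hθH : ∀ z, z ∉ H → θ z = 0 := fun z hz => hθ.1 z fun h => hz (hCH h)
    have hψI : rN H ψ ∈ IrrOn (cz (R.subgroupOf H)) := by
      rw [hczR]
      exact ((hTR1 G H (cz R) hKH).1 ψ hψH).1 hψ
    have hind : Induces M (rN H ψ) (rN H φ) := by
      rw [(hTPR p M hS H).2.1, ← Subgroup.subgroupOf_self H]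
      exact ((hTR2 G M H).2.1 H le_rfl ψ φ hψH hφ.1).1 (SB.symm hφψ)
    obtain ⟨n, -, hn⟩ := lo.con (R.subgroupOf H) hRp' (rN H ψ) hψI hind
    have hnn : cjS n (R.subgroupOf H) = R.subgroupOf H := by
      refine ((hFEQ H M n 1 (R.subgroupOf H) (R.subgroupOf H) (R.subgroupOf H) (rN H ψ) (rN H ψ) (rN H ψ)).2.1.2.2.2.1).2 ?_
      rw [hnzR, hnR]
      exact Subgroup.mem_subgroupOf.2 (Subgroup.mem_top _)
    have hψn : cjF n (rN H ψ) = rN H (cjF (n : G) ψ) := (hTR2 G M H).2.2.2 n ψ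
    rw [hnn, hczR, hψn] at hn
    have hψ'I : cjF (n : G) ψ ∈ IrrOn (cz R) := ((hCCJ G (cz R) H hHnK ψ hψ).1 n n.2).1
    have hψ'H : ∀ z, z ∉ H → cjF (n : G) ψ z = 0 := fun z hz => hψ'I.1 z fun h => hz (hKH h)
    have hSB : SB M (cz R) θ (cjF (n : G) ψ) :=
      ((hTR2 G M H).2.1 (cz R) hKH θ (cjF (n : G) ψ) hθH hψ'H).2 hn
    refine ⟨cjF (n : G) ψ, ⟨hψ'I, SB.symm hSB⟩, ?_⟩
    rw [(FRB5_mt hCCJ hB2 hHnK hψ hov hψ'I).1 ⟨n, n.2, rfl⟩]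
    exact he0
  · rintro ⟨ψ', ⟨hψ'I, hψ'θ⟩, hmt⟩
    have h1 : ∃ n ∈ H, ψ' = funMap (MulAut.conj n) ψ := by
      by_contra h
      exact hmt ((FRB5_mt hCCJ hB2 hHnK hψ hov hψ'I).2 h)
    obtain ⟨n, hn, hnψ⟩ := h1
    have h2 : SB M H ψ' ψ := by
      rw [hnψ]
      exact ((hCJG G M p n H).2.2.2.2.2.1 hn ψ).1
    have h3 : SB M H ψ' θ := (hFSI p M hS G (cz R) H ψ' θ).1 hKH hψ'I.1 hθK hψ'θ
    exact ⟨hφ, SB.trans hφψ (SB.trans (SB.symm h2) h3)⟩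

end Pool.Agent.L5
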